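import Pool.Agent.PRR.All

/-!
Multiple polynomial recurrence along residue classes: one dense `G_δ` set of points and, for each
of its points and each solvable system of residues, one sequence of times for all integral
polynomials vanishing at zero.
-/

set_option autoImplicit false

namespace Pool.Agent.Results.MP_17cc4e_an.ResidueRecurrence

open Filter Topology Polynomial

universe u

/-- `(X, T ^ k)` is minimal: every two-sided orbit `{T ^ (k n) x : n ∈ ℤ}` is dense. -/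
def PowMinimal {X : Type u} [TopologicalSpace X] (T : X ≃ₜ X) (k : ℕ) : Prop :=
  ∀ x : X, Dense {y : X | ∃ n : ℤ, y = (T ^ ((k : ℤ) * n)) x}

/-- `T ^ P(n_i) x → x` for every integral polynomial `P` vanishing at `0`. -/
def AllReturn {X : Type u} [TopologicalSpace X] (T : X ≃ₜ X) (x : X) (n : ℕ → ℕ) : Prop :=
  ∀ P : ℤ[X], P.eval 0 = 0 → Tendsto (fun i => (T ^ (P.eval (n i : ℤ))) x) atTop (𝓝 x)

/-- A system of residues `r k` modulo the `k ≥ 1` with `T ^ k` minimal is solvable if every finite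
subsystem has an integer solution. -/
def Solvable {X : Type u} [TopologicalSpace X] (T : X ≃ₜ X) (r : ℕ → ℤ) : Prop :=
  ∀ F : Finset ℕ, ∃ m : ℤ, ∀ k ∈ F, 1 ≤ k → PowMinimal T k → m ≡ r k [ZMOD k]

/-- The conclusion. -/
def Concl {X : Type u} [TopologicalSpace X] (T : X ≃ₜ X) : Prop :=
  ∃ Ω : Set X, IsGδ Ω ∧ Dense Ω ∧ ∀ x ∈ Ω, ∀ r : ℕ → ℤ, Solvable T r →
    ∃ n : ℕ → ℕ, StrictMono n ∧ (∀ i, 0 < n i) ∧
      (∀ k : ℕ, 1 ≤ k → PowMinimal T k → ∀ i, k ≤ i → (n i : ℤ) ≡ r k [ZMOD k]) ∧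
      AllReturn T x n

/-- The result of the PET induction. -/
theorem p_PET' : PRR.T_PET := by
  open PRR in
  have hCLO : T_CLO := p_CLO p_REL
  have hINF : T_INF := p_INF p_REL
  have hT2 : T_T2 := p_T2 hCLO
  have hUNIQ : T_UNIQ := p_UNIQ hCLO
  have hVD : T_VD := p_VD hCLO hT2 (p_VDA hCLO hT2 hUNIQ) (p_VDB hCLO hUNIQ)
  have hNS : T_NILSTEP := p_NILSTEP p_D1 p_D2 p_D3 p_D4 p_D5 p_D6 p_ERR p_STEP
  have hDS : T_DISTSTEP := p_DISTSTEP p_D1 p_D2 p_D5 p_D6 p_ERR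
  have hGROOT : T_GROOT := p_GROOT (p_DIV p_DIVARR) p_DIV1 p_KRES
  have hROOT : T_ROOT := p_ROOT (p_ROOTA hCLO hT2 hGROOT p_ONE) (p_ROOTB hCLO hT2 p_LIN)
  have hNIL1 : T_NIL1 := p_NIL1 hCLO hT2 hVD hROOT hNS
  have hDIST : T_DIST := p_DIST hCLO hT2 hVD hDS
  have hNILJ : T_NILJ := p_NILJ hCLO hNIL1
  have hLS : T_LS := p_LS hCLO (p_LS1 hCLO hT2 hUNIQ p_DIVARR hDIST)
  have hB : T_B := p_B hCLO hINF hNILJ hLS p_PLUS hDIST
  have hJ : T_JOINT := p_JOINT hCLO hINF hB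
  have hPS : T_PETSTEP := p_PETSTEP hCLO hINF hJ p_GEN
  exact p_PET hCLO hB p_PETORD hPS

/-! ### Small types -/

section Small

variable {X : Type u} [TopologicalSpace X] {X' : Type} [TopologicalSpace X']

/-- Conjugation by a homeomorphism. -/
def conj (h : X ≃ₜ X') : (X ≃ₜ X) →* (X' ≃ₜ X') where
  toFun T := (h.symm.trans T).trans h
  map_one' := by
    ext x
    change h (h.symm x) = x
    simp
  map_mul' S T := by
    ext x
    change h (S (T (h.symm x))) = h (S (h.symm (h (T (h.symm x)))))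
    simp

theorem conj_zpow (h : X ≃ₜ X') (T : X ≃ₜ X) (n : ℤ) (x : X) :
    ((conj h T) ^ n) (h x) = h ((T ^ n) x) := by
  rw [← map_zpow]
  change h ((T ^ n) (h.symm (h x))) = _
  simp

theorem powMinimal_conj (h : X ≃ₜ X') (T : X ≃ₜ X) (k : ℕ) :
    PowMinimal (conj h T) k ↔ PowMinimal T k := by
  constructor
  · intro H x
    have h1 := (H (h x)).preimage h.isOpenMap
    refine h1.mono ?_
    rintro y ⟨n, hn⟩
    refine ⟨n, h.injective ?_⟩
    rw [hn, conj_zpow]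
  · intro H x'
    obtain ⟨x, rfl⟩ := h.surjective x'
    have h1 := (H x).preimage h.symm.isOpenMap
    refine h1.mono ?_
    rintro y ⟨n, hn⟩
    refine ⟨n, ?_⟩
    rw [conj_zpow, ← hn]
    simp

theorem concl_conj (h : X ≃ₜ X') (T : X ≃ₜ X) (H : Concl (conj h T)) : Concl T := by
  obtain ⟨Ω, hG, hD, hΩ⟩ := H
  have hret : ∀ (x : X) (n : ℕ → ℕ), AllReturn (conj h T) (h x) n → AllReturn T x n := by
    intro x n H P hP
    have h1 := H P hP
    simp only [conj_zpow] at h1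
    have h2 := (h.symm.continuous.tendsto (h x)).comp h1
    simpa [Function.comp_def] using h2
  refine ⟨h ⁻¹' Ω, hG.preimage h.continuous, hD.preimage h.isOpenMap, fun x hx => ?_⟩
  intro r hr
  obtain ⟨n, hn1, hn2, hn3, hn4⟩ := hΩ (h x) hx r (fun F => by
    obtain ⟨m, hm⟩ := hr F
    exact ⟨m, fun k hk hk1 hmin => hm k hk hk1 ((powMinimal_conj h T k).1 hmin)⟩)
  exact ⟨n, hn1, hn2, fun k hk hmin => hn3 k hk ((powMinimal_conj h T k).2 hmin),
    hret x n hn4⟩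

end Small

theorem exists_small (X : Type u) [MetricSpace X] [CompactSpace X] :
    ∃ (X' : Type) (_ : MetricSpace X') (_ : CompactSpace X'), Nonempty (X ≃ₜ X') := by
  classical
  have : SecondCountableTopology X := inferInstance
  obtain ⟨b, hbc, -, hb⟩ := TopologicalSpace.exists_countable_basis X
  have : Countable b := hbc
  obtain ⟨e, he⟩ := exists_injective_nat b
  let f : X → Set ℕ := fun x => {n | ∃ s : b, e s = n ∧ x ∈ s.1}
  have hf : Function.Injective f := by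
    intro x y hxy
    by_contra hne
    obtain ⟨u, v, hu, hv, hxu, hyv, huv⟩ := t2_separation hne
    obtain ⟨s, hs, hxs, hsu⟩ := hb.exists_subset_of_mem_open hxu hu
    have h1 : e ⟨s, hs⟩ ∈ f x := ⟨⟨s, hs⟩, rfl, hxs⟩
    rw [hxy] at h1
    obtain ⟨t, ht, hyt⟩ := h1
    have h2 := he ht
    rw [h2] at hyt
    exact (Set.disjoint_left.1 huv (hsu hyt)) hyv
  have : Small.{0} X := small_of_injective hf
  let E : X ≃ Shrink.{0} X := equivShrink X
  let m : MetricSpace (Shrink.{0} X) := MetricSpace.induced E.symm E.symm.injective inferInstance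
  let h : Shrink.{0} X ≃ₜ X :=
    { toEquiv := E.symm
      continuous_toFun := continuous_induced_dom
      continuous_invFun := by
        refine continuous_induced_rng.2 ?_
        have h0 : (E.symm.toFun ∘ E.symm.invFun : X → X) = id := by
          ext x
          exact E.symm.right_inv x
        exact h0 ▸ continuous_id }
  exact ⟨Shrink.{0} X, m, h.symm.compactSpace, ⟨h.symm⟩⟩

/-! ### The main part -/

section Main

variable {X : Type} [MetricSpace X] [CompactSpace X] {T : X ≃ₜ X}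

omit [CompactSpace X] in
theorem isMin_of (h : PowMinimal T 1) : PRR.IsMin T := by
  intro x
  refine (h x).mono ?_
  rintro y ⟨n, rfl⟩
  exact ⟨n, by simp⟩

omit [CompactSpace X] in
theorem isMin_pow {k p : ℕ} (h : PowMinimal T k) (hp : p ∣ k) : PRR.IsMin (T ^ p) := by
  intro x
  refine (h x).mono ?_
  obtain ⟨q, rfl⟩ := hp
  rintro y ⟨n, rfl⟩
  refine ⟨(q : ℤ) * n, ?_⟩
  change ((T ^ p) ^ ((q : ℤ) * n)) x = _
  rw [← zpow_natCast, ← zpow_mul]
  congr 2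
  push_cast
  ring

/-- The good moduli. -/
def Good (T : X ≃ₜ X) (k : ℕ) : Prop :=
  0 < k ∧ ∀ p : ℕ, p.Prime → p ∣ k → PRR.IsMin (T ^ p)

/-- The open sets. -/
def OO (T : X ≃ₜ X) (a : Finset ℤ[X] × ℕ × ℤ × ℕ) : Set X :=
  {x | ∃ n : ℕ, a.2.2.2 < n ∧ ((a.2.1 : ℕ) : ℤ) ∣ (n : ℤ) - a.2.2.1 ∧
    ∀ p ∈ a.1, p.eval 0 = 0 → dist ((T ^ (p.eval (n : ℤ))) x) x < 1 / ((a.2.2.2 : ℝ) + 1)}

omit [CompactSpace X] in
theorem isOpen_OO (T : X ≃ₜ X) (a : Finset ℤ[X] × ℕ × ℤ × ℕ) : IsOpen (OO T a) := by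
  have : OO T a = ⋃ n : {n : ℕ // a.2.2.2 < n ∧ ((a.2.1 : ℕ) : ℤ) ∣ (n : ℤ) - a.2.2.1},
      ⋂ p : {p : ℤ[X] // p ∈ a.1 ∧ p.eval 0 = 0},
        {x : X | dist ((T ^ ((p : ℤ[X]).eval ((n : ℕ) : ℤ))) x) x < 1 / ((a.2.2.2 : ℝ) + 1)} := by
    ext x
    simp only [OO, Set.mem_ofPred_eq, Set.mem_iUnion, Set.mem_iInter, Subtype.exists,
      Subtype.forall]
    constructor
    · rintro ⟨n, h1, h2, h3⟩
      exact ⟨n, ⟨h1, h2⟩, fun p hp => h3 p hp.1 hp.2⟩
    · rintro ⟨n, ⟨h1, h2⟩, h3⟩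
      exact ⟨n, h1, h2, fun p hp hp0 => h3 p ⟨hp, hp0⟩⟩
  rw [this]
  have : Finite {p : ℤ[X] // p ∈ a.1 ∧ p.eval 0 = 0} :=
    Finite.of_injective (fun p => (⟨p.1, p.2.1⟩ : {p // p ∈ a.1}))
      (fun p q h => Subtype.ext (congrArg (fun z => z.1) h))
  refine isOpen_iUnion fun n => isOpen_iInter_of_finite fun p => ?_
  exact isOpen_lt ((T ^ _).continuous.dist continuous_id) continuous_const

theorem dense_OO (h : PRR.T_PET) (hmin : PRR.IsMin T) {a : Finset ℤ[X] × ℕ × ℤ × ℕ}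
    (ha : Good T a.2.1) : Dense (OO T a) := by
  classical
  obtain ⟨F, k, j, N⟩ := a
  rw [dense_iff_inter_open]
  rintro U hU ⟨y, hy⟩
  have hε : (0 : ℝ) < 1 / ((N : ℝ) + 1) := by positivity
  have hfix : PRR.act T PRR.u0 (PRR.act T PRR.u0 y) = PRR.act T PRR.u0 y := by
    rw [← PRR.act_mul, PRR.hu0.1]
  obtain ⟨x, ⟨n0, hn0⟩, hxU⟩ := (hmin (PRR.act T PRR.u0 y)).exists_mem_open hU ⟨y, hy⟩
  have hx : PRR.act T PRR.u0 x = x := by
    rw [← hn0]
    change PRR.act T PRR.u0 ((T ^ n0) (PRR.act T PRR.u0 y)) = (T ^ n0) (PRR.act T PRR.u0 y)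
    rw [← PRR.zpow_act, hfix]
  obtain ⟨z, hz, n, hn, hkn, hP, -⟩ := h X T k ha.1 hmin ha.2 x hx
    (F.filter fun p => p ≠ 0 ∧ p.eval 0 = 0) (by
      intro p hp
      exact (Finset.mem_filter.1 hp).2) (fun _ => 1) (fun _ _ => Subgroup.one_mem _)
    j (N : ℤ) ∅ (by simp)
    (U ∩ Metric.ball x (1 / ((N : ℝ) + 1) / 2)) (hU.inter Metric.isOpen_ball)
    ⟨hxU, Metric.mem_ball_self (by positivity)⟩
    (fun _ => U ∩ Metric.ball x (1 / ((N : ℝ) + 1) / 2))
    (fun p _ => ⟨hU.inter Metric.isOpen_ball, by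
      rw [PRR.act_val_one, hx]
      exact ⟨hxU, Metric.mem_ball_self (by positivity)⟩⟩) Set.univ isOpen_univ
    (fun _ _ => Set.mem_univ _)
  obtain ⟨n, rfl⟩ : ∃ n' : ℕ, n = (n' : ℤ) := ⟨n.toNat, by omega⟩
  refine ⟨z, hz.1, n, by exact_mod_cast hn, hkn, fun p hp hp0 => ?_⟩
  by_cases hpz : p = 0
  · subst hpz
    change dist ((T ^ ((0 : ℤ[X]).eval (n : ℤ))) z) z < 1 / ((N : ℝ) + 1)
    rw [Polynomial.eval_zero, zpow_zero]
    change dist z z < _
    rwa [dist_self]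
  · have h1 := (hP p (Finset.mem_filter.2 ⟨hp, hpz, hp0⟩)).2
    have h2 := hz.2
    rw [Metric.mem_ball] at h1 h2
    calc dist ((T ^ (p.eval (n : ℤ))) z) z
        ≤ dist ((T ^ (p.eval (n : ℤ))) z) x + dist z x := dist_triangle_right _ _ _
      _ < 1 / ((N : ℝ) + 1) / 2 + 1 / ((N : ℝ) + 1) / 2 := add_lt_add h1 h2
      _ = 1 / ((N : ℝ) + 1) := by ring

theorem countable_poly : Countable ℤ[X] := by
  rw [← Cardinal.mk_le_aleph0_iff]
  refine Polynomial.cardinalMk_le_max.trans ?_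
  simp

/-- The set of good points. -/
def Om (T : X ≃ₜ X) : Set X := ⋂ a : {a : Finset ℤ[X] × ℕ × ℤ × ℕ // Good T a.2.1}, OO T a.1

omit [CompactSpace X] in
theorem isGδ_Om (T : X ≃ₜ X) : IsGδ (Om T) := by
  have : Countable ℤ[X] := countable_poly
  exact IsGδ.iInter_of_isOpen fun a => isOpen_OO T a.1

theorem dense_Om (h : PRR.T_PET) (hmin : PRR.IsMin T) : Dense (Om T) := by
  have : Countable ℤ[X] := countable_poly
  exact dense_iInter_of_isOpen (fun a => isOpen_OO T a.1) fun a => dense_OO h hmin a.2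

omit [CompactSpace X] in
theorem seq {x : X} (hx : x ∈ Om T) (kk : ℕ → ℕ) (mm : ℕ → ℤ) (hk : ∀ i, Good T (kk i)) :
    ∃ n : ℕ → ℕ, StrictMono n ∧ (∀ i, 0 < n i ∧ ((kk i : ℕ) : ℤ) ∣ (n i : ℤ) - mm i) ∧
      AllReturn T x n := by
  classical
  have : Countable ℤ[X] := countable_poly
  obtain ⟨s, hs⟩ := exists_surjective_nat ℤ[X]
  have h1 : ∀ i : ℕ, ∃ᶠ n : ℕ in atTop, (0 < n ∧ ((kk i : ℕ) : ℤ) ∣ (n : ℤ) - mm i) ∧
      ∀ l ≤ i, (s l).eval 0 = 0 → dist ((T ^ ((s l).eval (n : ℤ))) x) x < 1 / ((i : ℝ) + 1) := by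
    intro i
    rw [frequently_atTop]
    intro N
    have h2 : x ∈ OO T ((Finset.range (i + 1)).image s, kk i, mm i, max N i) :=
      Set.mem_iInter.1 hx ⟨((Finset.range (i + 1)).image s, kk i, mm i, max N i), hk i⟩
    obtain ⟨n, hn1, hn2, hn3⟩ := h2
    change max N i < n at hn1
    refine ⟨n, (le_max_left N i).trans hn1.le, ⟨by omega, hn2⟩, fun l hl h0 => ?_⟩
    have h3 := hn3 (s l) (Finset.mem_image_of_mem s (Finset.mem_range.2 (by omega))) h0
    refine h3.trans_le ?_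
    change 1 / (((max N i : ℕ) : ℝ) + 1) ≤ 1 / ((i : ℝ) + 1)
    have h4 : ((i : ℕ) : ℝ) ≤ ((max N i : ℕ) : ℝ) := by exact_mod_cast le_max_right N i
    gcongr
  obtain ⟨n, hn, hQ⟩ := extraction_forall_of_frequently h1
  refine ⟨n, hn, fun i => (hQ i).1, fun P hP => ?_⟩
  obtain ⟨l, rfl⟩ := hs P
  rw [tendsto_iff_dist_tendsto_zero]
  refine squeeze_zero' (Eventually.of_forall fun _ => dist_nonneg) ?_
    tendsto_one_div_add_atTop_nhds_zero_nat
  filter_upwards [eventually_ge_atTop l] with i hi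
  exact ((hQ i).2 l hi hP).le

theorem concl_zero (h : PRR.T_PET) (hT : PowMinimal T 1) : Concl T := by
  classical
  refine ⟨Om T, isGδ_Om T, dense_Om h (isMin_of hT), fun x hx r hr => ?_⟩
  choose m hm using fun i : ℕ => hr (Finset.range (i + 1))
  let A : ℕ → Finset ℕ := fun i => (Finset.range (i + 1)).filter fun k => 1 ≤ k ∧ PowMinimal T k
  obtain ⟨n, hn, h1, h2⟩ := seq hx (fun i => ∏ k ∈ A i, k) m (fun i => by
    refine ⟨Finset.prod_pos fun k hk => ?_, fun p hp hpd => ?_⟩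
    · exact (Finset.mem_filter.1 hk).2.1
    · obtain ⟨k, hk, hpk⟩ := (hp.prime.dvd_finsetProd_iff _).1 hpd
      exact isMin_pow (Finset.mem_filter.1 hk).2.2 hpk)
  refine ⟨n, hn, fun i => (h1 i).1, fun k hk hmin i hi => ?_, h2⟩
  have hki : k ∈ Finset.range (i + 1) := Finset.mem_range.2 (by omega)
  have h3 : (k : ℤ) ∣ (n i : ℤ) - m i := by
    refine dvd_trans ?_ (h1 i).2
    have h5 : k ∈ A i := Finset.mem_filter.2 ⟨hki, hk, hmin⟩
    exact_mod_cast Finset.dvd_prod_of_mem (fun k => k) h5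
  have h4 : (n i : ℤ) ≡ m i [ZMOD k] := (Int.modEq_iff_dvd.2 h3).symm
  exact h4.trans (hm i k hki hk hmin)

end Main

/-- **Multiple polynomial recurrence along residue classes**: one dense `G_δ` set for all moduli,
residues and polynomials, and one sequence of times for all polynomials at once. -/
theorem result (X : Type u) [MetricSpace X] [CompactSpace X] (T : X ≃ₜ X)
    (hT : PowMinimal T 1) :
    ∃ Ω : Set X, IsGδ Ω ∧ Dense Ω ∧ ∀ x ∈ Ω, ∀ r : ℕ → ℤ, Solvable T r →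
      ∃ n : ℕ → ℕ, StrictMono n ∧ (∀ i, 0 < n i) ∧
        (∀ k : ℕ, 1 ≤ k → PowMinimal T k → ∀ i, k ≤ i → (n i : ℤ) ≡ r k [ZMOD k]) ∧
        AllReturn T x n := by
  obtain ⟨X', hm, hc, hh⟩ := exists_small X
  obtain ⟨h⟩ := hh
  exact concl_conj h T (concl_zero p_PET' ((powMinimal_conj h T 1).2 hT))

end Pool.Agent.Results.MP_17cc4e_an.ResidueRecurrence
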